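import Pool.Agent.SeamS.Colour
import Pool.Agent.SeamS.Regions

/-!
# Characterisation of the realisable seam patterns (MP_6cce73_lc)

A seam pattern `D` on a polygon or polyhedral surface `S`, with or without a two-colour pattern, is realisable by a folding
of a convex paper if and only if it admits a sheet stacking. All definitions are in `Pool.Agent.Hhelper79.Seam.Defs`
(foldings, seams, stackings) and `Pool.Agent.SeamS.Surface` (polyhedral targets).
-/

namespace Pool.Agent.Results.MP_6cce73_lc.Characterisation

open Pool.Agent.Hhelper79.Seam Pool.Agent.SeamS Set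

/-- Sanity check: a pattern whose regions are all convex admits a stacking, hence is realisable (for
polyhedral targets; theorem of Demaine, Demaine and Mitchell). -/
theorem convex_regions (S D : Set E3) (hS : IsPolySurface S) (hT : IsTarget S)
    (hD : ∃ T : Finset (Set E3), (∀ t ∈ T, ∃ a b : E3, t = segment ℝ a b) ∧ D = ⋃ t ∈ T, t)
    (hDS : D ⊆ S)
    (h : ∀ s ∈ S \ D, ∃ (g : E2 →ᵃⁱ[ℝ] E3) (U : Set E2),
      connectedComponentIn (S \ D) s = g '' U ∧ IsOpen U ∧ Convex ℝ U) : Realisable S D := by
  obtain ⟨same, low, hst⟩ := stacking_of_convex h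
  exact realisable_of_stacking hS hT hD hDS hst

/-- A seam pattern `D` on a polygon or polyhedral surface `S` is realisable if and only if it admits a sheet
stacking; a two-colour seam pattern is realisable if and only if it admits a sheet stacking with constant
colour on each sheet. (The pattern has only finitely many regions, and a stacking consists of a grouping of
the regions into sheets and a relation between the sheets, so this is a finite condition.) -/
theorem result (S D : Set E3) (hS : IsPolySurface S) (hT : IsTarget S)
    (hD : ∃ T : Finset (Set E3), (∀ t ∈ T, ∃ a b : E3, t = segment ℝ a b) ∧ D = ⋃ t ∈ T, t)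
    (hDS : D ⊆ S) :
    {R : Set E3 | ∃ s ∈ S \ D, R = connectedComponentIn (S \ D) s}.Finite ∧
    (Realisable S D ↔ ∃ same low : E3 → E3 → Prop, IsStacking S D same low) ∧
    (∀ (ν : E3 → E3) (red : Set E3), IsNormal S ν → IsTransversal S ν →
      (RealisableCol S ν red D ↔ ∃ same low : E3 → E3 → Prop, IsStacking S D same low ∧
        ∀ s ∈ S \ D, ∀ t ∈ S \ D, same s t → (s ∈ red ↔ t ∈ red))) := by
  refine ⟨finite_regions hS hD, ⟨?_, ?_⟩, ?_⟩
  · rintro ⟨P, F, hF⟩
    obtain ⟨T, hT', hDT⟩ := hD
    subst hDT
    refine ⟨F.same, F.low, ?_⟩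
    rw [← hF]
    exact F.isStacking hT T hT' hF
  · rintro ⟨same, low, hst⟩
    exact realisable_of_stacking hS hT hD hDS hst
  · intro ν red hν hν'
    constructor
    · rintro ⟨P, F, hF, hc⟩
      obtain ⟨T, hT', hDT⟩ := hD
      subst hDT
      refine ⟨F.same, F.low, ?_, fun s _ t _ h => F.colour hν hc h⟩
      rw [← hF]
      exact F.isStacking hT T hT' hF
    · rintro ⟨same, low, hst, hcol⟩
      exact realisableCol_of_stacking hS hT hD hDS hν hν' hst hcol

end Pool.Agent.Results.MP_6cce73_lc.Characterisation
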